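import Mathlib
import Pool.Agent.Lib.MP_b0b8df_co.Final
import Pool.Agent.Lib.MP_b0b8df_co.Lin.FullLib
import Pool.Agent.Lib.MP_b0b8df_co.Lin.All

/-!
# Families without a near-minimal cluster: the full answer

For every `d ≥ 1` and every `ζ > 0` there is a constant `C` such that for
`C log n ≤ k ≤ (d/(d+1) - ζ) n` every `k`-uniform family on an `n`-element set without a
`(d, k, ((d+1)/d + ζ) k)`-cluster has at most `binom (n-1) (k-1)` members, with equality exactly
for the stars. No hypothesis is used; the linear range `ζ n ≤ k` is proved here as well.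
-/

set_option autoImplicit false

namespace Pool.Agent.Results.MP_b0b8df_co.FullRange

/-- `F` contains a `(d, k, s)`-cluster: `d + 1` distinct members of size `k` without a common
element and whose union has at most `s` elements. -/
def HasCluster {n : ℕ} (d k : ℕ) (s : ℝ) (F : Finset (Finset (Fin n))) : Prop :=
  ∃ A : Fin (d + 1) → Finset (Fin n), Function.Injective A ∧ (∀ i, A i ∈ F) ∧
    (∀ i, (A i).card = k) ∧ (∀ x : Fin n, ∃ i, x ∉ A i) ∧
    ((Finset.univ.biUnion A).card : ℝ) ≤ s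

/-- The assertion of the question for one pair `(n, k)`: every `k`-uniform family on an
`n`-element set without a `(d, k, ((d+1)/d + ζ) k)`-cluster has at most `binom (n-1) (k-1)`
members, with equality if and only if it is a star. -/
def StarsExtremal (d : ℕ) (ζ : ℝ) (n k : ℕ) : Prop :=
  ∀ F : Finset (Finset (Fin n)), (∀ A ∈ F, A.card = k) →
    ¬ HasCluster d k ((((d : ℝ) + 1) / d + ζ) * k) F →
    F.card ≤ (n - 1).choose (k - 1) ∧
      (F.card = (n - 1).choose (k - 1) ↔
        ∃ x : Fin n, F = (Finset.powersetCard k Finset.univ).filter (fun A => x ∈ A))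

lemma HasCluster.mono {n d k : ℕ} {s s' : ℝ} (h : s ≤ s') {F : Finset (Finset (Fin n))}
    (hF : HasCluster d k s F) : HasCluster d k s' F := by
  obtain ⟨A, h1, h2, h3, h4, h5⟩ := hF
  exact ⟨A, h1, h2, h3, h4, h5.trans h⟩

lemma StarsExtremal.mono {n d k : ℕ} {ζ ζ' : ℝ} (h : ζ ≤ ζ') (H : StarsExtremal d ζ n k) :
    StarsExtremal d ζ' n k := by
  intro F hF hcl
  apply H F hF
  intro hc
  apply hcl
  apply hc.mono
  apply mul_le_mul_of_nonneg_right (by linarith) (Nat.cast_nonneg k)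

/-- It is enough to prove that the families with at least `binom (n-1) (k-1)` members are stars. -/
lemma StarsExtremal.of_large {n d k : ℕ} {ζ : ℝ} (hk : 1 ≤ k)
    (H : ∀ F : Finset (Finset (Fin n)), (∀ A ∈ F, A.card = k) →
      ¬ HasCluster d k ((((d : ℝ) + 1) / d + ζ) * k) F → (n - 1).choose (k - 1) ≤ F.card →
      ∃ x : Fin n, F = (Finset.powersetCard k Finset.univ).filter (fun A => x ∈ A)) :
    StarsExtremal d ζ n k := by
  intro F hF hcl
  have hstar : ∀ x : Fin n, ((Finset.powersetCard k Finset.univ).filter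
      (fun A => x ∈ A)).card = (n - 1).choose (k - 1) := by
    intro x
    rw [Pool.Agent.Lib.MP_b0b8df_co.card_star _ (Finset.mem_univ x) hk, Finset.card_univ,
      Fintype.card_fin]
  refine ⟨?_, ?_, ?_⟩
  · by_contra h
    push Not at h
    obtain ⟨x, hx⟩ := H F hF hcl h.le
    rw [hx, hstar x] at h
    exact lt_irrefl _ h
  · intro h
    exact H F hF hcl h.ge
  · rintro ⟨x, hx⟩
    rw [hx, hstar x]

/-- The sublinear range `C log n ≤ k ≤ c n`, `d ≥ 2`. -/
theorem sublinear (d : ℕ) (hd : 2 ≤ d) (ζ : ℝ) (hζ : 0 < ζ) :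
    ∃ C c : ℝ, 0 < C ∧ 0 < c ∧ ∀ n k : ℕ, 1 ≤ k → C * Real.log n ≤ k → (k : ℝ) ≤ c * n →
      StarsExtremal d ζ n k := by
  have hd' : (2 : ℝ) ≤ d := by exact_mod_cast hd
  set ζ' : ℝ := min ζ (1 / (2 * d ^ 2)) with hζ'
  have h1 : 0 < ζ' := lt_min hζ (by positivity)
  have h2 : ζ' ≤ 1 / (2 * (d : ℝ) ^ 2) := min_le_right _ _
  have h3 : ζ' * d ^ 2 < 1 := by
    have : ζ' * d ^ 2 ≤ 1 / (2 * (d : ℝ) ^ 2) * d ^ 2 :=
      mul_le_mul_of_nonneg_right h2 (by positivity)
    have h4 : 1 / (2 * (d : ℝ) ^ 2) * d ^ 2 = 1 / 2 := by field_simp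
    linarith
  have h4 : ζ' ≤ 1 := by
    refine h2.trans ?_
    rw [div_le_one (by positivity)]
    nlinarith
  obtain ⟨C, c, hC, hc, H⟩ := Pool.Agent.Lib.MP_b0b8df_co.main_tuple d hd ζ' h1 h4
  refine ⟨C, c, hC, hc, ?_⟩
  intro n k hk hCk hkc
  apply StarsExtremal.mono (min_le_left ζ (1 / (2 * (d : ℝ) ^ 2)))
  apply StarsExtremal.of_large hk
  intro F hF hcl
  apply H n k hk hCk hkc F hF
  intro A hA1 hA2 hA3
  apply hcl
  refine ⟨A, ?_, hA1, fun i => hF _ (hA1 i), hA2, ?_⟩
  · exact Pool.Agent.Lib.MP_b0b8df_co.tuple_injective hd hk h3 A (fun i => hF _ (hA1 i)) hA2 hA3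
  · refine hA3.trans (le_of_eq ?_)
    have hd0 : (d : ℝ) ≠ 0 := by positivity
    rw [← hζ']
    field_simp

/-- The linear range `ζ n ≤ k`, `d ≥ 2`. -/
theorem linear (d : ℕ) (hd : 2 ≤ d) (ζ : ℝ) (hζ : 0 < ζ) :
    ∃ n₀ : ℕ, ∀ n k : ℕ, n₀ < n → ζ * n ≤ k → (k : ℝ) ≤ ((d : ℝ) / (d + 1) - ζ) * n →
      StarsExtremal d ζ n k := by
  have hd' : (2 : ℝ) ≤ d := by exact_mod_cast hd
  set ζ' : ℝ := min ζ (1 / (2 * d ^ 2)) with hζ'
  have h1 : 0 < ζ' := lt_min hζ (by positivity)
  have h2 : ζ' ≤ 1 / (2 * (d : ℝ) ^ 2) := min_le_right _ _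
  have h3 : ζ' * d ^ 2 < 1 := by
    have : ζ' * d ^ 2 ≤ 1 / (2 * (d : ℝ) ^ 2) * d ^ 2 :=
      mul_le_mul_of_nonneg_right h2 (by positivity)
    have h4 : 1 / (2 * (d : ℝ) ^ 2) * d ^ 2 = 1 / 2 := by field_simp
    linarith
  obtain ⟨n₀, H⟩ := Pool.Agent.Lib.MP_b0b8df_co.Lin.linear_star
    Pool.Agent.Lib.MP_b0b8df_co.Lin.all_linear d hd ζ' h1 h3
  refine ⟨n₀, ?_⟩
  intro n k hn hk1 hk2
  have hle : ζ' ≤ ζ := min_le_left _ _
  have hn' : (0 : ℝ) < n := by
    have : 0 < n := by omega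
    exact_mod_cast this
  have hk : 1 ≤ k := by
    have h2 : (0 : ℝ) < k := lt_of_lt_of_le (by positivity) hk1
    have : 0 < k := by exact_mod_cast h2
    exact this
  apply StarsExtremal.mono hle
  apply StarsExtremal.of_large hk
  intro F hF hcl
  apply H n k hn
  · exact (mul_le_mul_of_nonneg_right hle hn'.le).trans hk1
  · exact hk2.trans (mul_le_mul_of_nonneg_right (by linarith) hn'.le)
  · exact hF
  · intro A hA1 hA2 hA3 hA4
    exact hcl ⟨A, hA1, hA2, fun i => hF _ (hA2 i), hA3, hA4⟩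

/-- The case `d = 1`: the Erdos-Ko-Rado theorem with uniqueness. -/
theorem one (ζ : ℝ) (hζ : 0 < ζ) (n k : ℕ) (hk : 1 ≤ k)
    (hkn : (k : ℝ) ≤ (((1 : ℕ) : ℝ) / ((1 : ℕ) + 1) - ζ) * n) : StarsExtremal 1 ζ n k := by
  have hk' : (1 : ℝ) ≤ k := by exact_mod_cast hk
  have hn : (0 : ℝ) < n := by
    by_contra h
    push Not at h
    have h0 : (n : ℝ) = 0 := le_antisymm h (Nat.cast_nonneg n)
    rw [h0, mul_zero] at hkn
    linarith
  have h2 : 2 * k < n := by
    have e : (((1 : ℕ) : ℝ) / ((1 : ℕ) + 1) - ζ) * n = n / 2 - ζ * n := by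
      push_cast; ring
    rw [e] at hkn
    have : (2 * k : ℝ) < n := by nlinarith [mul_pos hζ hn]
    exact_mod_cast this
  apply StarsExtremal.of_large hk
  intro F hF hcl hc
  have hint : ∀ A ∈ F, ∀ B ∈ F, ¬ Disjoint A B := by
    intro A hA B hB hAB
    apply hcl
    refine ⟨![A, B], ?_, ?_, ?_, ?_, ?_⟩
    · intro i j hij
      have hne : A ≠ B := by
        rintro rfl
        have h0 : A = ∅ := by simpa using hAB
        have := hF A hA
        rw [h0, Finset.card_empty] at this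
        omega
      fin_cases i <;> fin_cases j <;> simp_all
    · intro i
      fin_cases i <;> simp_all
    · intro i
      fin_cases i
      · exact hF A hA
      · exact hF B hB
    · intro x
      by_cases hx : x ∈ A
      · exact ⟨1, fun h => (Finset.disjoint_left.1 hAB) hx h⟩
      · exact ⟨0, hx⟩
    · have h1 : (Finset.univ.biUnion ![A, B]) ⊆ A ∪ B := by
        intro x hx
        rw [Finset.mem_biUnion] at hx
        obtain ⟨i, _, hi⟩ := hx
        rw [Finset.mem_union]
        fin_cases i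
        · exact Or.inl hi
        · exact Or.inr hi
      have h3 : (Finset.univ.biUnion ![A, B]).card ≤ 2 * k := by
        refine (Finset.card_le_card h1).trans ?_
        refine (Finset.card_union_le _ _).trans ?_
        rw [hF A hA, hF B hB]
        omega
      have h4 : ((Finset.univ.biUnion ![A, B]).card : ℝ) ≤ 2 * k := by exact_mod_cast h3
      refine h4.trans ?_
      apply mul_le_mul_of_nonneg_right _ (Nat.cast_nonneg k)
      push_cast
      linarith
  obtain ⟨x, hx⟩ := Pool.Agent.Lib.MP_b0b8df_co.Lin.all_EKR n k F hk h2 hF hint hc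
  refine ⟨x, ?_⟩
  apply Finset.eq_of_subset_of_card_le
  · intro A hA
    rw [Finset.mem_filter, Finset.mem_powersetCard_univ]
    exact ⟨hF A hA, hx A hA⟩
  · rw [Pool.Agent.Lib.MP_b0b8df_co.card_star _ (Finset.mem_univ x) hk, Finset.card_univ,
      Fintype.card_fin]
    exact hc

/-- The full answer to Q1: for every `d ≥ 1` and `ζ > 0` there is `C` such that for all `n`, `k`
with `1 ≤ k` and `C log n ≤ k ≤ (d/(d+1) - ζ) n` the stars are exactly the extremal families. -/
theorem result : ∀ d : ℕ, 1 ≤ d → ∀ ζ : ℝ, 0 < ζ → ∃ C : ℝ, 0 < C ∧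
    ∀ n k : ℕ, 1 ≤ k → C * Real.log n ≤ k → (k : ℝ) ≤ ((d : ℝ) / (d + 1) - ζ) * n →
      StarsExtremal d ζ n k := by
  intro d hd1 ζ hζ
  rcases Nat.lt_or_ge 1 d with hd | hd
  swap
  · have hd' : d = 1 := le_antisymm hd hd1
    subst hd'
    exact ⟨1, one_pos, fun n k hk _ hkn => one ζ hζ n k hk hkn⟩
  obtain ⟨C, c, hC, hc, H⟩ := sublinear d hd ζ hζ
  obtain ⟨n₀, hn₀⟩ := linear d hd (min ζ c) (lt_min hζ hc)
  have hlog2 : 0 < Real.log 2 := Real.log_pos (by norm_num)
  refine ⟨C + (n₀ + 1) / Real.log 2, by positivity, ?_⟩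
  intro n k hk hCk hkn
  have hk' : (1 : ℝ) ≤ k := by exact_mod_cast hk
  have hd' : (2 : ℝ) ≤ d := by exact_mod_cast hd
  have hkn' : (k : ℝ) < n := by
    have h1 : (d : ℝ) / (d + 1) < 1 := by
      rw [div_lt_one (by positivity)]; linarith
    have hnpos : (0 : ℝ) < n := by
      by_contra h
      push Not at h
      have h0 : (n : ℝ) = 0 := le_antisymm h (Nat.cast_nonneg n)
      rw [h0, mul_zero] at hkn
      linarith
    calc (k : ℝ) ≤ ((d : ℝ) / (d + 1) - ζ) * n := hkn
      _ < 1 * n := mul_lt_mul_of_pos_right (by linarith) hnpos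
      _ = n := one_mul _
  have hn2 : (2 : ℝ) ≤ n := by
    have : 1 < n := by
      have : (1 : ℝ) < n := by linarith
      exact_mod_cast this
    exact_mod_cast this
  have hlogn : Real.log 2 ≤ Real.log n := Real.log_le_log (by norm_num) hn2
  have hCk1 : C * Real.log n ≤ k := by
    have : 0 ≤ (n₀ + 1) / Real.log 2 * Real.log n := by
      have : 0 ≤ Real.log n := by linarith
      positivity
    linarith
  by_cases hkc : (k : ℝ) ≤ c * n
  · exact H n k hk hCk1 hkc
  · push Not at hkc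
    apply StarsExtremal.mono (min_le_left ζ c)
    apply hn₀ n k
    · have h1 : ((n₀ : ℝ) + 1) / Real.log 2 * Real.log 2 ≤ (n₀ + 1) / Real.log 2 * Real.log n :=
        mul_le_mul_of_nonneg_left hlogn (by positivity)
      rw [div_mul_cancel₀ _ hlog2.ne'] at h1
      have h2 : 0 ≤ C * Real.log n := mul_nonneg hC.le (by linarith)
      have h3 : (n₀ : ℝ) < n := by linarith
      exact_mod_cast h3
    · have : min ζ c * n ≤ c * n := mul_le_mul_of_nonneg_right (min_le_right _ _) (by linarith)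
      linarith
    · have : min ζ c * n ≤ ζ * n := mul_le_mul_of_nonneg_right (min_le_left _ _) (by linarith)
      linarith

end Pool.Agent.Results.MP_b0b8df_co.FullRange
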